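import Pool.Agent.Lib.MP_c10acd_nt.Prime

/-!
The inequality for one class: if `u i * v i = M` for all `i` then
`(∑ log (v i))^2 ≤ log M * ∑_{i,j} (log gcd(v i, v j) - 1/2 log gcd(u i, v i, u j, v j))`.
-/

namespace Pool.Agent.Lib.MP_c10acd_nt

open Finset

/-- The weight of a pair of factorisations. -/
noncomputable def wt (u v u' v' : ℕ) : ℝ :=
  Real.log (Nat.gcd v v') - (1 / 2) * Real.log (Nat.gcd (Nat.gcd u v) (Nat.gcd u' v'))

theorem log_eq_sum_primeFactors {n M : ℕ} (hM : 0 < M) (h : n ∣ M) :
    Real.log n = ∑ p ∈ M.primeFactors, (n.factorization p : ℝ) * Real.log p := by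
  rw [Real.log_nat_eq_sum_factorization, Finsupp.sum]
  refine Finset.sum_subset ?_ ?_
  · rw [Nat.support_factorization]
    exact Nat.primeFactors_mono h hM.ne'
  · intro p _ hp
    rw [Finsupp.notMem_support_iff] at hp
    rw [hp]; simp

theorem class_ineq {ι : Type*} (R : Finset ι) (u v : ι → ℕ) (M : ℕ) (hM : 0 < M)
    (h : ∀ i ∈ R, u i * v i = M) :
    (∑ i ∈ R, Real.log (v i)) ^ 2
      ≤ Real.log M * ∑ i ∈ R, ∑ j ∈ R, wt (u i) (v i) (u j) (v j) := by
  have hvM : ∀ i ∈ R, v i ∣ M := fun i hi => ⟨u i, by rw [← h i hi, mul_comm]⟩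
  have huM : ∀ i ∈ R, u i ∣ M := fun i hi => ⟨v i, by rw [← h i hi]⟩
  have hv0 : ∀ i ∈ R, v i ≠ 0 := fun i hi h0 => by
    have := h i hi
    rw [h0, mul_zero] at this
    omega
  have hu0 : ∀ i ∈ R, u i ≠ 0 := fun i hi h0 => by
    have := h i hi
    rw [h0, zero_mul] at this
    omega
  have hfac : ∀ i ∈ R, ∀ p, (u i).factorization p = M.factorization p - (v i).factorization p := by
    intro i hi p
    have h1 := h i hi
    have h2 : M.factorization p = (u i).factorization p + (v i).factorization p := by
      rw [← h1, Nat.factorization_mul (hu0 i hi) (hv0 i hi)]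
      rfl
    omega
  have hle : ∀ i ∈ R, ∀ p, (v i).factorization p ≤ M.factorization p := fun i hi p =>
    (Nat.factorization_le_iff_dvd (hv0 i hi) hM.ne').mpr (hvM i hi) p
  -- the three logarithms
  have e1 : ∑ i ∈ R, Real.log (v i)
      = ∑ p ∈ M.primeFactors, Real.log p * ∑ i ∈ R, ((v i).factorization p : ℝ) := by
    have : ∀ i ∈ R, Real.log (v i)
        = ∑ p ∈ M.primeFactors, ((v i).factorization p : ℝ) * Real.log p :=
      fun i hi => log_eq_sum_primeFactors hM (hvM i hi)
    rw [Finset.sum_congr rfl this, Finset.sum_comm]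
    refine Finset.sum_congr rfl fun p _ => ?_
    rw [← Finset.sum_mul, mul_comm]
  have e2 : Real.log M = ∑ p ∈ M.primeFactors, Real.log p * (M.factorization p : ℝ) := by
    rw [log_eq_sum_primeFactors hM (dvd_refl M)]
    refine Finset.sum_congr rfl fun p _ => mul_comm _ _
  have e3 : ∑ i ∈ R, ∑ j ∈ R, wt (u i) (v i) (u j) (v j)
      = ∑ p ∈ M.primeFactors, Real.log p * ∑ i ∈ R, ∑ j ∈ R,
        (((min ((v i).factorization p) ((v j).factorization p) : ℕ) : ℝ)
        - (1 / 2) * ((min (min ((v i).factorization p)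
            (M.factorization p - (v i).factorization p))
            (min ((v j).factorization p) (M.factorization p - (v j).factorization p)) : ℕ) : ℝ)) := by
    have h1 : ∀ i ∈ R, ∀ j ∈ R, wt (u i) (v i) (u j) (v j)
        = ∑ p ∈ M.primeFactors, Real.log p *
        (((min ((v i).factorization p) ((v j).factorization p) : ℕ) : ℝ)
        - (1 / 2) * ((min (min ((v i).factorization p)
            (M.factorization p - (v i).factorization p))
            (min ((v j).factorization p) (M.factorization p - (v j).factorization p)) : ℕ) : ℝ)) := by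
      intro i hi j hj
      unfold wt
      have d1 : Nat.gcd (v i) (v j) ∣ M := (Nat.gcd_dvd_left _ _).trans (hvM i hi)
      have d2 : Nat.gcd (Nat.gcd (u i) (v i)) (Nat.gcd (u j) (v j)) ∣ M :=
        ((Nat.gcd_dvd_left _ _).trans (Nat.gcd_dvd_left _ _)).trans (huM i hi)
      rw [log_eq_sum_primeFactors hM d1, log_eq_sum_primeFactors hM d2, Finset.mul_sum,
        ← Finset.sum_sub_distrib]
      refine Finset.sum_congr rfl fun p _ => ?_
      have f1 : (Nat.gcd (v i) (v j)).factorization p
          = min ((v i).factorization p) ((v j).factorization p) := by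
        rw [Nat.factorization_gcd (hv0 i hi) (hv0 j hj)]; rfl
      have f2 : (Nat.gcd (Nat.gcd (u i) (v i)) (Nat.gcd (u j) (v j))).factorization p
          = min (min ((v i).factorization p) (M.factorization p - (v i).factorization p))
            (min ((v j).factorization p) (M.factorization p - (v j).factorization p)) := by
        have g1 : Nat.gcd (u i) (v i) ≠ 0 := Nat.gcd_ne_zero_left (hu0 i hi)
        have g2 : Nat.gcd (u j) (v j) ≠ 0 := Nat.gcd_ne_zero_left (hu0 j hj)
        rw [Nat.factorization_gcd g1 g2, Nat.factorization_gcd (hu0 i hi) (hv0 i hi),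
          Nat.factorization_gcd (hu0 j hj) (hv0 j hj)]
        simp only [Finsupp.inf_apply, hfac i hi p, hfac j hj p]
        rw [min_comm ((v i).factorization p), min_comm ((v j).factorization p)]
      rw [f1, f2]
      ring
    rw [Finset.sum_congr rfl fun i hi => Finset.sum_congr rfl fun j hj => h1 i hi j hj]
    have h2 : ∀ p ∈ M.primeFactors, ∀ F : ι → ι → ℝ, Real.log p * ∑ i ∈ R, ∑ j ∈ R, F i j
        = ∑ i ∈ R, ∑ j ∈ R, Real.log p * F i j := by
      intro p _ F
      rw [Finset.mul_sum]
      refine Finset.sum_congr rfl fun i _ => ?_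
      rw [Finset.mul_sum]
    symm
    rw [Finset.sum_congr rfl fun p hp => h2 p hp _, Finset.sum_comm]
    refine Finset.sum_congr rfl fun i _ => ?_
    rw [Finset.sum_comm]
  rw [e1, e2, e3]
  have hlog : ∀ p : ℕ, 0 ≤ Real.log p := fun p => Real.log_natCast_nonneg p
  have hpi : ∀ p ∈ M.primeFactors, _ := fun p _ =>
    prime_ineq R (M.factorization p) (fun i => (v i).factorization p) (fun i hi => hle i hi p)
  refine Finset.sum_sq_le_sum_mul_sum_of_sq_le_mul _ ?_ ?_ ?_
  · intro p _
    exact mul_nonneg (hlog p) (by positivity)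
  · intro p hp
    refine mul_nonneg (hlog p) ?_
    have h1 := hpi p hp
    have h3 : 0 < M.factorization p := by
      have := Nat.support_factorization M
      rw [← this, Finsupp.mem_support_iff] at hp
      exact Nat.pos_of_ne_zero hp
    have h4 : (0 : ℝ) < M.factorization p := by exact_mod_cast h3
    have h2 : 0 ≤ (M.factorization p : ℝ) * _ := (sq_nonneg _).trans h1
    exact nonneg_of_mul_nonneg_right h2 h4
  · intro p hp
    have h1 := hpi p hp
    rw [mul_pow]
    calc Real.log p ^ 2 * (∑ i ∈ R, ((v i).factorization p : ℝ)) ^ 2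
        ≤ Real.log p ^ 2 * _ := mul_le_mul_of_nonneg_left h1 (sq_nonneg _)
      _ = _ := by ring

end Pool.Agent.Lib.MP_c10acd_nt
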