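import Pool.Agent.Lib.MP_c10acd_nt.ClassIneq

/-!
Counting quadruples `a^2 - c^2 = d^2 - b^2` in a short interval.
-/

namespace Pool.Agent.Lib.MP_c10acd_nt

open Finset

theorem gcd_mul_le {v₁ v₂ τ : ℕ} {u₁ u₂ : ℤ} (hv₁ : 0 < v₁) (hv₂ : 0 < v₂)
    (h : u₁ * v₁ = u₂ * v₂) (h1 : (τ : ℤ) ∣ (v₁ : ℤ) + v₂) (h2 : (τ : ℤ) ∣ u₁ + u₂) :
    Nat.gcd v₁ v₂ * τ
      ≤ (v₁ + v₂) * Nat.gcd (Nat.gcd u₁.natAbs v₁) (Nat.gcd u₂.natAbs v₂) := by
  obtain ⟨z, y, hcop, hz, hy⟩ := Nat.exists_coprime v₁ v₂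
  set t := Nat.gcd v₁ v₂ with ht
  have ht0 : 0 < t := Nat.gcd_pos_of_pos_left _ hv₁
  have hy0 : 0 < y := by
    rcases Nat.eq_zero_or_pos y with h0 | h0
    · rw [h0, zero_mul] at hy; omega
    · exact h0
  have ht0' : (t : ℤ) ≠ 0 := by exact_mod_cast ht0.ne'
  have hy0' : (y : ℤ) ≠ 0 := by exact_mod_cast hy0.ne'
  have e1 : u₁ * z = u₂ * y := by
    have h3 : (v₁ : ℤ) = z * t := by exact_mod_cast hz
    have h4 : (v₂ : ℤ) = y * t := by exact_mod_cast hy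
    rw [h3, h4] at h
    have h5 : (t : ℤ) * (u₁ * z) = t * (u₂ * y) := by linarith
    exact mul_left_cancel₀ ht0' h5
  have hdvd : (y : ℤ) ∣ u₁ := by
    have hc : IsCoprime (y : ℤ) (z : ℤ) := (Nat.isCoprime_iff_coprime.mpr hcop).symm
    exact hc.dvd_of_dvd_mul_right ⟨u₂, by rw [e1]; ring⟩
  obtain ⟨x, hx⟩ := hdvd
  have hx2 : u₂ = x * z := by
    have h5 : (y : ℤ) * u₂ = y * (x * z) := by
      rw [hx] at e1; linarith
    exact mul_left_cancel₀ hy0' h5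
  set γ := Int.gcd (t : ℤ) x with hγ
  have hγ0 : 0 < γ := Int.gcd_pos_of_ne_zero_left _ ht0'
  -- τ divides γ * (y + z)
  have hτ : (τ : ℤ) ∣ (γ : ℤ) * (y + z) := by
    rw [hγ, Int.gcd_eq_gcd_ab]
    have h3 : (τ : ℤ) ∣ t * (y + z) := by
      have : (t : ℤ) * (y + z) = (v₁ : ℤ) + v₂ := by
        have h3 : (v₁ : ℤ) = z * t := by exact_mod_cast hz
        have h4 : (v₂ : ℤ) = y * t := by exact_mod_cast hy
        rw [h3, h4]; ring
      rw [this]; exact h1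
    have h4 : (τ : ℤ) ∣ x * (y + z) := by
      have : x * ((y : ℤ) + z) = u₁ + u₂ := by rw [hx, hx2]; ring
      rw [this]; exact h2
    have h5 : ((t : ℤ) * Int.gcdA t x + x * Int.gcdB t x) * (y + z)
        = (t * (y + z)) * Int.gcdA t x + (x * (y + z)) * Int.gcdB t x := by ring
    rw [h5]
    exact dvd_add (h3.mul_right _) (h4.mul_right _)
  have hτ' : τ ∣ γ * (y + z) := by exact_mod_cast hτ
  have hτle : τ ≤ γ * (y + z) := Nat.le_of_dvd (by positivity) hτ'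
  -- γ divides the fourfold gcd
  have hγt : γ ∣ t := by
    have := Int.gcd_dvd_left (a := (t : ℤ)) (b := x)
    exact_mod_cast this
  have hγx : (γ : ℤ) ∣ x := Int.gcd_dvd_right (a := (t : ℤ)) (b := x)
  have g1 : γ ∣ u₁.natAbs := by
    rw [← Int.natCast_dvd]
    exact hx ▸ (hγx.mul_left _)
  have g2 : γ ∣ v₁ := hz ▸ hγt.mul_left z
  have g3 : γ ∣ u₂.natAbs := by
    rw [← Int.natCast_dvd, hx2]
    exact hγx.mul_right _
  have g4 : γ ∣ v₂ := hy ▸ hγt.mul_left y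
  have hG : γ ∣ Nat.gcd (Nat.gcd u₁.natAbs v₁) (Nat.gcd u₂.natAbs v₂) :=
    Nat.dvd_gcd (Nat.dvd_gcd g1 g2) (Nat.dvd_gcd g3 g4)
  have hGpos : 0 < Nat.gcd (Nat.gcd u₁.natAbs v₁) (Nat.gcd u₂.natAbs v₂) :=
    Nat.gcd_pos_of_pos_left _ (Nat.gcd_pos_of_pos_right _ hv₁)
  have hGle := Nat.le_of_dvd hGpos hG
  calc t * τ ≤ t * (γ * (y + z)) := Nat.mul_le_mul_left t hτle
    _ = (z * t + y * t) * γ := by ring
    _ = (v₁ + v₂) * γ := by rw [← hz, ← hy]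
    _ ≤ _ := Nat.mul_le_mul_left _ hGle

/-- `|a - c|`. -/
def uu (x : ℕ × ℕ) : ℕ := ((x.1 : ℤ) - x.2).natAbs

/-- `a + c`. -/
def vv (x : ℕ × ℕ) : ℕ := x.1 + x.2

/-- `a^2 - c^2`. -/
def ff (x : ℕ × ℕ) : ℤ := (x.1 : ℤ) ^ 2 - (x.2 : ℤ) ^ 2

theorem uu_mul_vv (x : ℕ × ℕ) : uu x * vv x = (ff x).natAbs := by
  unfold uu vv ff
  have : (x.1 : ℤ) ^ 2 - (x.2 : ℤ) ^ 2 = ((x.1 : ℤ) - x.2) * ((x.1 + x.2 : ℕ) : ℤ) := by
    push_cast; ring
  rw [this, Int.natAbs_mul, Int.natAbs_natCast]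

/-- The weight attached to two pairs. -/
noncomputable def W (x y : ℕ × ℕ) : ℝ := wt (uu x) (vv x) (uu y) (vv y)

theorem W_add_W_le {a b c d : ℕ} (ha : 0 < a) (hc : 0 < c)
    (h : (a : ℤ) ^ 2 - (c : ℤ) ^ 2 = (d : ℤ) ^ 2 - (b : ℤ) ^ 2) (hd : 0 < d) :
    W (a, c) (d, b) + W (a, d) (c, b) ≤ Real.log ((a + b + c + d : ℕ) : ℝ) := by
  have hv1 : 0 < a + c := by omega
  have hv2 : 0 < d + b := by omega
  have hv3 : 0 < a + d := by omega
  have hv4 : 0 < c + b := by omega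
  set τ₁ := Nat.gcd (a + c) (d + b) with hτ₁
  set τ₂ := Nat.gcd (a + d) (c + b) with hτ₂
  have hτ₁0 : 0 < τ₁ := Nat.gcd_pos_of_pos_left _ hv1
  have hτ₂0 : 0 < τ₂ := Nat.gcd_pos_of_pos_left _ hv3
  have dl1 : (τ₁ : ℤ) ∣ ((a + c : ℕ) : ℤ) := Int.natCast_dvd_natCast.mpr (Nat.gcd_dvd_left _ _)
  have dr1 : (τ₁ : ℤ) ∣ ((d + b : ℕ) : ℤ) := Int.natCast_dvd_natCast.mpr (Nat.gcd_dvd_right _ _)
  have dl2 : (τ₂ : ℤ) ∣ ((a + d : ℕ) : ℤ) := Int.natCast_dvd_natCast.mpr (Nat.gcd_dvd_left _ _)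
  have dr2 : (τ₂ : ℤ) ∣ ((c + b : ℕ) : ℤ) := Int.natCast_dvd_natCast.mpr (Nat.gcd_dvd_right _ _)
  have p1 : τ₁ * τ₂ ≤ ((a + c) + (d + b))
      * Nat.gcd (Nat.gcd ((a : ℤ) - c).natAbs (a + c)) (Nat.gcd ((d : ℤ) - b).natAbs (d + b)) := by
    refine gcd_mul_le hv1 hv2 ?_ ?_ ?_
    · push_cast; linarith
    · have := dvd_add dl2 dr2
      have e : ((a + c : ℕ) : ℤ) + ((d + b : ℕ) : ℤ) = ((a + d : ℕ) : ℤ) + ((c + b : ℕ) : ℤ) := by
        push_cast; ring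
      rw [e]; exact this
    · have := dvd_sub dl2 dr2
      have e : ((a : ℤ) - c) + ((d : ℤ) - b) = ((a + d : ℕ) : ℤ) - ((c + b : ℕ) : ℤ) := by
        push_cast; ring
      rw [e]; exact this
  have p2 : τ₂ * τ₁ ≤ ((a + d) + (c + b))
      * Nat.gcd (Nat.gcd ((a : ℤ) - d).natAbs (a + d)) (Nat.gcd ((c : ℤ) - b).natAbs (c + b)) := by
    refine gcd_mul_le hv3 hv4 ?_ ?_ ?_
    · push_cast; linarith
    · have := dvd_add dl1 dr1
      have e : ((a + d : ℕ) : ℤ) + ((c + b : ℕ) : ℤ) = ((a + c : ℕ) : ℤ) + ((d + b : ℕ) : ℤ) := by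
        push_cast; ring
      rw [e]; exact this
    · have := dvd_sub dl1 dr1
      have e : ((a : ℤ) - d) + ((c : ℤ) - b) = ((a + c : ℕ) : ℤ) - ((d + b : ℕ) : ℤ) := by
        push_cast; ring
      rw [e]; exact this
  unfold W wt uu vv
  simp only
  set g₁ := Nat.gcd (Nat.gcd ((a : ℤ) - c).natAbs (a + c)) (Nat.gcd ((d : ℤ) - b).natAbs (d + b))
    with hg₁
  set g₂ := Nat.gcd (Nat.gcd ((a : ℤ) - d).natAbs (a + d)) (Nat.gcd ((c : ℤ) - b).natAbs (c + b))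
    with hg₂
  have hg₁0 : 0 < g₁ := Nat.gcd_pos_of_pos_left _ (Nat.gcd_pos_of_pos_right _ hv1)
  have hg₂0 : 0 < g₂ := Nat.gcd_pos_of_pos_left _ (Nat.gcd_pos_of_pos_right _ hv3)
  have es : (a + c) + (d + b) = a + b + c + d := by ring
  have es' : (a + d) + (c + b) = a + b + c + d := by ring
  rw [es] at p1
  rw [es'] at p2
  rw [← hτ₁, ← hτ₂]
  have hs0 : (0 : ℝ) < ((a + b + c + d : ℕ) : ℝ) := by
    have : 0 < a + b + c + d := by omega
    exact_mod_cast this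
  have r1 : (0 : ℝ) < τ₁ := by exact_mod_cast hτ₁0
  have r2 : (0 : ℝ) < τ₂ := by exact_mod_cast hτ₂0
  have r3 : (0 : ℝ) < g₁ := by exact_mod_cast hg₁0
  have r4 : (0 : ℝ) < g₂ := by exact_mod_cast hg₂0
  have q1 : Real.log τ₁ + Real.log τ₂ ≤ Real.log ((a + b + c + d : ℕ) : ℝ) + Real.log g₁ := by
    rw [← Real.log_mul r1.ne' r2.ne', ← Real.log_mul hs0.ne' r3.ne']
    refine Real.log_le_log (mul_pos r1 r2) ?_
    exact_mod_cast p1
  have q2 : Real.log τ₁ + Real.log τ₂ ≤ Real.log ((a + b + c + d : ℕ) : ℝ) + Real.log g₂ := by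
    rw [← Real.log_mul r1.ne' r2.ne', ← Real.log_mul hs0.ne' r4.ne']
    refine Real.log_le_log (mul_pos r1 r2) ?_
    rw [mul_comm] at p2
    exact_mod_cast p2
  linarith

section Count

variable (K : Finset ℕ)

/-- Ordered pairs of distinct elements. -/
def PP : Finset (ℕ × ℕ) := (K ×ˢ K).filter (fun x => x.1 ≠ x.2)

/-- Pairs of pairs with the same difference of squares. -/
def QQ : Finset ((ℕ × ℕ) × (ℕ × ℕ)) := (PP K ×ˢ PP K).filter (fun q => ff q.1 = ff q.2)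

theorem sum_QQ (G : (ℕ × ℕ) × (ℕ × ℕ) → ℝ) :
    ∑ q ∈ QQ K, G q = ∑ n ∈ (PP K).image ff, ∑ x ∈ (PP K).filter (fun x => ff x = n),
      ∑ y ∈ (PP K).filter (fun y => ff y = n), G (x, y) := by
  unfold QQ
  rw [Finset.sum_filter, Finset.sum_product]
  rw [← Finset.sum_fiberwise_of_maps_to (t := (PP K).image ff) (g := ff)
    (fun x hx => Finset.mem_image_of_mem ff hx)]
  refine Finset.sum_congr rfl fun n _ => ?_
  refine Finset.sum_congr rfl fun x hx => ?_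
  rw [Finset.sum_filter]
  refine Finset.sum_congr rfl fun y _ => ?_
  rw [Finset.mem_filter] at hx
  simp only [hx.2]
  by_cases h : ff y = n
  · rw [if_pos h, if_pos h.symm]
  · rw [if_neg h, if_neg (fun h' => h h'.symm)]

theorem card_QQ : ((QQ K).card : ℝ)
    = ∑ n ∈ (PP K).image ff, (((PP K).filter (fun x => ff x = n)).card : ℝ) ^ 2 := by
  have h := sum_QQ K (fun _ => 1)
  simp only [Finset.sum_const, nsmul_eq_mul, mul_one] at h
  rw [h]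
  refine Finset.sum_congr rfl fun n _ => ?_
  rw [sq]

variable {K}

/-- The lower bound coming from the class inequality. -/
theorem lower_bound {V L : ℝ} (hV : 0 ≤ V) (hK0 : ∀ k ∈ K, 0 < k)
    (hKV : ∀ x ∈ PP K, V ≤ Real.log (vv x))
    (hKL : ∀ x ∈ PP K, Real.log ((ff x).natAbs : ℝ) ≤ L) :
    V ^ 2 * ((QQ K).card : ℝ) ≤ L * ∑ q ∈ QQ K, W q.1 q.2 := by
  rw [card_QQ, sum_QQ, Finset.mul_sum, Finset.mul_sum]
  refine Finset.sum_le_sum fun n hn => ?_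
  rw [Finset.mem_image] at hn
  obtain ⟨x₀, hx₀, rfl⟩ := hn
  set R := (PP K).filter (fun x => ff x = ff x₀) with hR
  have hff : ff x₀ ≠ 0 := by
    unfold PP at hx₀
    rw [Finset.mem_filter, Finset.mem_product] at hx₀
    intro h0
    unfold ff at h0
    apply hx₀.2
    have h1 : ((x₀.1 : ℤ)) ^ 2 = (x₀.2 : ℤ) ^ 2 := by linarith
    have h2 : x₀.1 ^ 2 = x₀.2 ^ 2 := by exact_mod_cast h1
    exact Nat.pow_left_injective (n := 2) (by norm_num) h2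
  have hM : 0 < (ff x₀).natAbs := Int.natAbs_pos.mpr hff
  have hci := class_ineq R uu vv (ff x₀).natAbs hM (fun i hi => by
    rw [Finset.mem_filter] at hi
    rw [uu_mul_vv, hi.2])
  have h1 : (R.card : ℝ) * V ≤ ∑ i ∈ R, Real.log (vv i) := by
    rw [← nsmul_eq_mul, ← Finset.sum_const]
    exact Finset.sum_le_sum fun i hi => hKV i (Finset.mem_filter.mp hi).1
  have h2 : 0 ≤ (R.card : ℝ) * V := by positivity
  have h3 : ((R.card : ℝ) * V) ^ 2 ≤ (∑ i ∈ R, Real.log (vv i)) ^ 2 :=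
    pow_le_pow_left₀ h2 h1 2
  have hlogM : Real.log ((ff x₀).natAbs : ℝ) ≤ L := hKL x₀ hx₀
  have hnn : 0 ≤ ∑ i ∈ R, ∑ j ∈ R, wt (uu i) (vv i) (uu j) (vv j) := by
    refine Finset.sum_nonneg fun i hi => Finset.sum_nonneg fun j hj => ?_
    unfold wt
    have hvi : 0 < vv i := by
      have := (Finset.mem_filter.mp (Finset.mem_filter.mp hi).1).1
      rw [Finset.mem_product] at this
      have h4 := hK0 _ this.1
      unfold vv; omega
    have hvj : 0 < vv j := by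
      have := (Finset.mem_filter.mp (Finset.mem_filter.mp hj).1).1
      rw [Finset.mem_product] at this
      have h4 := hK0 _ this.1
      unfold vv; omega
    have hg : Nat.gcd (Nat.gcd (uu i) (vv i)) (Nat.gcd (uu j) (vv j)) ∣ Nat.gcd (vv i) (vv j) :=
      Nat.dvd_gcd ((Nat.gcd_dvd_left _ _).trans (Nat.gcd_dvd_right _ _))
        ((Nat.gcd_dvd_right _ _).trans (Nat.gcd_dvd_right _ _))
    have hgpos : 0 < Nat.gcd (vv i) (vv j) := Nat.gcd_pos_of_pos_left _ hvi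
    have hle := Nat.le_of_dvd hgpos hg
    have hg0 : 0 < Nat.gcd (Nat.gcd (uu i) (vv i)) (Nat.gcd (uu j) (vv j)) :=
      Nat.pos_of_dvd_of_pos hg hgpos
    have h5 : Real.log (Nat.gcd (Nat.gcd (uu i) (vv i)) (Nat.gcd (uu j) (vv j)))
        ≤ Real.log (Nat.gcd (vv i) (vv j)) := by
      refine Real.log_le_log (by exact_mod_cast hg0) (by exact_mod_cast hle)
    have h6 : 0 ≤ Real.log (Nat.gcd (vv i) (vv j)) := Real.log_natCast_nonneg _
    linarith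
  calc V ^ 2 * (R.card : ℝ) ^ 2 = ((R.card : ℝ) * V) ^ 2 := by ring
    _ ≤ (∑ i ∈ R, Real.log (vv i)) ^ 2 := h3
    _ ≤ Real.log ((ff x₀).natAbs : ℝ) * ∑ i ∈ R, ∑ j ∈ R, wt (uu i) (vv i) (uu j) (vv j) := hci
    _ ≤ L * ∑ i ∈ R, ∑ j ∈ R, wt (uu i) (vv i) (uu j) (vv j) :=
        mul_le_mul_of_nonneg_right hlogM hnn
    _ = _ := rfl

/-- The swap of the second and third entries. -/
def sw (q : (ℕ × ℕ) × (ℕ × ℕ)) : (ℕ × ℕ) × (ℕ × ℕ) := ((q.1.1, q.2.1), (q.1.2, q.2.2))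

theorem sw_sw (q : (ℕ × ℕ) × (ℕ × ℕ)) : sw (sw q) = q := rfl

theorem sw_mem {q : (ℕ × ℕ) × (ℕ × ℕ)} (hq : q ∈ (QQ K).filter (fun q => q.1 ≠ q.2)) :
    sw q ∈ (QQ K).filter (fun q => q.1 ≠ q.2) := by
  obtain ⟨⟨a, c⟩, ⟨d, b⟩⟩ := q
  unfold QQ PP at hq ⊢
  simp only [Finset.mem_filter, Finset.mem_product, sw] at hq ⊢
  obtain ⟨⟨⟨⟨⟨ha, hc⟩, hac⟩, ⟨⟨hd, hb⟩, hdb⟩⟩, hf⟩, hne⟩ := hq
  unfold ff at hf ⊢
  simp only at hf ⊢
  have had : a ≠ d := by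
    rintro rfl
    apply hne
    have h1 : (c : ℤ) ^ 2 = (b : ℤ) ^ 2 := by linarith
    have h2 : c ^ 2 = b ^ 2 := by exact_mod_cast h1
    have h3 : c = b := Nat.pow_left_injective (n := 2) (by norm_num) h2
    rw [h3]
  have hcb : c ≠ b := by
    rintro rfl
    apply had
    have h1 : (a : ℤ) ^ 2 = (d : ℤ) ^ 2 := by linarith
    have h2 : a ^ 2 = d ^ 2 := by exact_mod_cast h1
    exact Nat.pow_left_injective (n := 2) (by norm_num) h2
  refine ⟨⟨⟨⟨⟨ha, hd⟩, had⟩, ⟨⟨hc, hb⟩, hcb⟩⟩, by linarith⟩, ?_⟩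
  intro h
  exact hac (Prod.mk.inj h).1

/-- The upper bound coming from the swap symmetry. -/
theorem upper_bound {B U : ℝ} (hK0 : ∀ k ∈ K, 0 < k)
    (hU : ∀ x ∈ PP K, Real.log (vv x) ≤ U)
    (hB : ∀ a ∈ K, ∀ b ∈ K, ∀ c ∈ K, ∀ d ∈ K, Real.log ((a + b + c + d : ℕ) : ℝ) ≤ B)
    (hU0 : 0 ≤ U) (hB0 : 0 ≤ B) :
    ∑ q ∈ QQ K, W q.1 q.2 ≤ U * (K.card : ℝ) ^ 2 + (1 / 2) * B * ((QQ K).card : ℝ) := by
  rw [← Finset.sum_filter_add_sum_filter_not (QQ K) (fun q => q.1 = q.2)]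
  refine add_le_add ?_ ?_
  · -- diagonal
    have h1 : ∑ q ∈ (QQ K).filter (fun q => q.1 = q.2), W q.1 q.2
        ≤ ∑ q ∈ (QQ K).filter (fun q => q.1 = q.2), U := by
      refine Finset.sum_le_sum fun q hq => ?_
      rw [Finset.mem_filter] at hq
      obtain ⟨hq, he⟩ := hq
      have hq1 : q.1 ∈ PP K := (Finset.mem_product.mp (Finset.mem_filter.mp hq).1).1
      rw [← he]
      unfold W wt
      rw [Nat.gcd_self]
      have h2 : 0 ≤ Real.log (Nat.gcd (Nat.gcd (uu q.1) (vv q.1)) (Nat.gcd (uu q.1) (vv q.1))) :=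
        Real.log_natCast_nonneg _
      have h3 := hU _ hq1
      linarith
    refine h1.trans ?_
    rw [Finset.sum_const, nsmul_eq_mul, mul_comm]
    refine mul_le_mul_of_nonneg_left ?_ hU0
    have h2 : ((QQ K).filter (fun q => q.1 = q.2)).card ≤ (K ×ˢ K).card := by
      refine Finset.card_le_card_of_injOn (fun q => q.1) ?_ ?_
      · intro q hq
        have hq' := Finset.mem_filter.mp (Finset.mem_coe.mp hq)
        have hq1 : q.1 ∈ PP K :=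
          (Finset.mem_product.mp (Finset.mem_filter.mp hq'.1).1).1
        exact Finset.mem_coe.mpr (Finset.mem_filter.mp hq1).1
      · intro q hq q' hq' h
        have h1 := (Finset.mem_filter.mp (Finset.mem_coe.mp hq)).2
        have h2 := (Finset.mem_filter.mp (Finset.mem_coe.mp hq')).2
        have h3 : q.1 = q'.1 := h
        exact Prod.ext h3 (by rw [← h1, ← h2, h3])
    rw [Finset.card_product] at h2
    have h3 : (((QQ K).filter (fun q => q.1 = q.2)).card : ℝ) ≤ ((K.card * K.card : ℕ) : ℝ) := by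
      exact_mod_cast h2
    rw [Nat.cast_mul, ← sq] at h3
    exact h3
  · -- off the diagonal
    set Q' := (QQ K).filter (fun q => ¬ q.1 = q.2) with hQ'
    have hsw : ∑ q ∈ Q', W (sw q).1 (sw q).2 = ∑ q ∈ Q', W q.1 q.2 := by
      refine Finset.sum_nbij' sw sw ?_ ?_ ?_ ?_ ?_
      · intro q hq; exact sw_mem hq
      · intro q hq; exact sw_mem hq
      · intro q _; exact sw_sw q
      · intro q _; exact sw_sw q
      · intro q _; rfl
    have h2 : 2 * ∑ q ∈ Q', W q.1 q.2 ≤ ∑ q ∈ Q', B := by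
      rw [two_mul]
      nth_rewrite 2 [← hsw]
      rw [← Finset.sum_add_distrib]
      refine Finset.sum_le_sum fun q hq => ?_
      obtain ⟨⟨a, c⟩, ⟨d, b⟩⟩ := q
      rw [hQ'] at hq
      unfold QQ PP at hq
      simp only [Finset.mem_filter, Finset.mem_product] at hq
      obtain ⟨⟨⟨⟨⟨ha, hc⟩, hac⟩, ⟨⟨hd, hb⟩, hdb⟩⟩, hf⟩, hne⟩ := hq
      unfold ff at hf
      simp only at hf
      have := W_add_W_le (hK0 a ha) (hK0 c hc) hf (hK0 d hd)
      exact this.trans (hB a ha b hb c hc d hd)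
    rw [Finset.sum_const, nsmul_eq_mul] at h2
    have h3 : (Q'.card : ℝ) ≤ (QQ K).card := by
      exact_mod_cast Finset.card_le_card (Finset.filter_subset _ _)
    nlinarith

end Count

end Pool.Agent.Lib.MP_c10acd_nt
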