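import Mathlib

/-!
The inequality at one prime: for exponents `a i ≤ A`,
`(∑ a i)^2 ≤ A * ∑_{i,j} (min (a i) (a j) - 1/2 min (a i) (a j) (A - a i) (A - a j))`.
-/

namespace Pool.Agent.Lib.MP_c10acd_nt

open Finset

theorem cast_min_eq_sum {A s t : ℕ} (hs : s ≤ A) :
    ((min s t : ℕ) : ℝ)
      = ∑ l ∈ range A, (if l < s then (1 : ℝ) else 0) * (if l < t then (1 : ℝ) else 0) := by
  have h1 : ∀ l, (if l < s then (1 : ℝ) else 0) * (if l < t then (1 : ℝ) else 0)
      = if l < min s t then (1 : ℝ) else 0 := by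
    intro l
    rcases lt_or_ge l s with h | h <;> rcases lt_or_ge l t with h' | h' <;>
      simp [h, h', not_lt.mpr]
  simp only [h1]
  rw [← Finset.sum_filter]
  have h2 : (range A).filter (fun l => l < min s t) = range (min s t) := by
    ext l
    simp only [Finset.mem_filter, Finset.mem_range]
    constructor
    · exact fun h => h.2
    · intro h
      exact ⟨by omega, h⟩
  rw [h2]
  simp

theorem prime_ineq {ι : Type*} (R : Finset ι) (A : ℕ) (a : ι → ℕ) (ha : ∀ i ∈ R, a i ≤ A) :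
    (∑ i ∈ R, (a i : ℝ)) ^ 2 ≤ (A : ℝ) * ∑ i ∈ R, ∑ j ∈ R,
      (((min (a i) (a j) : ℕ) : ℝ)
        - (1 / 2) * ((min (min (a i) (A - a i)) (min (a j) (A - a j)) : ℕ) : ℝ)) := by
  set x : ℕ → ι → ℝ := fun l i => if l < a i then (1 : ℝ) else 0 with hx
  set y : ℕ → ι → ℝ := fun l i => if l < min (a i) (A - a i) then (1 : ℝ) else 0 with hy
  set m : ℕ → ℝ := fun l => ∑ i ∈ R, x l i with hm
  set P : ℕ → ℝ := fun l => ∑ i ∈ R, y l i with hP
  have e1 : ∑ i ∈ R, (a i : ℝ) = ∑ l ∈ range A, m l := by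
    rw [hm, Finset.sum_comm]
    refine Finset.sum_congr rfl fun i hi => ?_
    have := cast_min_eq_sum (A := A) (s := a i) (t := a i) (ha i hi)
    rw [min_self] at this
    rw [this]
    refine Finset.sum_congr rfl fun l _ => ?_
    rw [hx]
    simp only
    split_ifs <;> simp
  have e2 : ∑ i ∈ R, ∑ j ∈ R, ((min (a i) (a j) : ℕ) : ℝ) = ∑ l ∈ range A, (m l) ^ 2 := by
    have : ∀ l, (m l) ^ 2 = ∑ i ∈ R, ∑ j ∈ R, x l i * x l j := by
      intro l
      rw [sq, hm]
      simp only
      rw [Finset.sum_mul_sum]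
    simp only [this]
    symm
    rw [Finset.sum_comm]
    refine Finset.sum_congr rfl fun i hi => ?_
    rw [Finset.sum_comm]
    refine Finset.sum_congr rfl fun j _ => ?_
    exact (cast_min_eq_sum (ha i hi)).symm
  have e3 : ∑ i ∈ R, ∑ j ∈ R, ((min (min (a i) (A - a i)) (min (a j) (A - a j)) : ℕ) : ℝ)
      = ∑ l ∈ range A, (P l) ^ 2 := by
    have : ∀ l, (P l) ^ 2 = ∑ i ∈ R, ∑ j ∈ R, y l i * y l j := by
      intro l
      rw [sq, hP]
      simp only
      rw [Finset.sum_mul_sum]
    simp only [this]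
    symm
    rw [Finset.sum_comm]
    refine Finset.sum_congr rfl fun i hi => ?_
    rw [Finset.sum_comm]
    refine Finset.sum_congr rfl fun j _ => ?_
    exact (cast_min_eq_sum ((min_le_left _ _).trans (ha i hi))).symm
  -- reflection
  have r1 : ∑ l ∈ range A, (m (A - 1 - l)) ^ 2 = ∑ l ∈ range A, (m l) ^ 2 :=
    Finset.sum_range_reflect (fun l => (m l) ^ 2) A
  have r2 : ∑ l ∈ range A, (P (A - 1 - l)) ^ 2 = ∑ l ∈ range A, (P l) ^ 2 :=
    Finset.sum_range_reflect (fun l => (P l) ^ 2) A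
  have r3 : ∑ l ∈ range A, m (A - 1 - l) = ∑ l ∈ range A, m l :=
    Finset.sum_range_reflect m A
  have key0 : ∀ l k, l ≤ k → l + k + 1 = A → P l = m l - m k ∧ P k = 0 := by
    intro l k hlk hA
    constructor
    · rw [hP, hm]
      simp only
      rw [← Finset.sum_sub_distrib]
      refine Finset.sum_congr rfl fun i hi => ?_
      have hi' := ha i hi
      rw [hx, hy]
      simp only
      by_cases c1 : l < a i
      · by_cases c2 : k < a i
        · have : ¬ l < min (a i) (A - a i) := by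
            rw [lt_min_iff]; omega
          simp [c1, c2, this]
        · have : l < min (a i) (A - a i) := by
            rw [lt_min_iff]; omega
          simp [c1, c2, this]
      · have c2 : ¬ k < a i := by omega
        have : ¬ l < min (a i) (A - a i) := by
          rw [lt_min_iff]; omega
        simp [c1, c2, this]
    · rw [hP]
      simp only
      refine Finset.sum_eq_zero fun i hi => ?_
      have hi' := ha i hi
      rw [hy]
      simp only
      have : ¬ k < min (a i) (A - a i) := by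
        rw [lt_min_iff]; omega
      simp [this]
  have key : ∀ l ∈ range A, (P l) ^ 2 + (P (A - 1 - l)) ^ 2 = (m l - m (A - 1 - l)) ^ 2 := by
    intro l hl
    rw [Finset.mem_range] at hl
    rcases le_total l (A - 1 - l) with h | h
    · obtain ⟨h1, h2⟩ := key0 l (A - 1 - l) h (by omega)
      rw [h1, h2]; ring
    · obtain ⟨h1, h2⟩ := key0 (A - 1 - l) l h (by omega)
      rw [h1, h2]; ring
  have four : 4 * (∑ l ∈ range A, (m l) ^ 2 - (1 / 2) * ∑ l ∈ range A, (P l) ^ 2)
      = ∑ l ∈ range A, (m l + m (A - 1 - l)) ^ 2 := by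
    have h1 : ∑ l ∈ range A, (m l + m (A - 1 - l)) ^ 2
        = ∑ l ∈ range A, (2 * (m l) ^ 2 + 2 * (m (A - 1 - l)) ^ 2
          - ((P l) ^ 2 + (P (A - 1 - l)) ^ 2)) := by
      refine Finset.sum_congr rfl fun l hl => ?_
      rw [key l hl]; ring
    rw [h1, Finset.sum_sub_distrib, Finset.sum_add_distrib, Finset.sum_add_distrib,
      ← Finset.mul_sum, ← Finset.mul_sum, r1, r2]
    ring
  have cs := sq_sum_le_card_mul_sum_sq (s := range A) (f := fun l => m l + m (A - 1 - l))
  rw [Finset.card_range, Finset.sum_add_distrib, r3, ← four] at cs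
  have e4 : ∑ i ∈ R, ∑ j ∈ R,
      (((min (a i) (a j) : ℕ) : ℝ)
        - (1 / 2) * ((min (min (a i) (A - a i)) (min (a j) (A - a j)) : ℕ) : ℝ))
      = ∑ l ∈ range A, (m l) ^ 2 - (1 / 2) * ∑ l ∈ range A, (P l) ^ 2 := by
    simp only [Finset.sum_sub_distrib, ← Finset.mul_sum]
    rw [e2, e3]
  rw [e1, e4]
  nlinarith [cs]

end Pool.Agent.Lib.MP_c10acd_nt
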